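import Pool.Agent.R951.Cube.Abs

/-!
# The homology of the Vietoris-Rips complexes of the hypercube is not always multiplicity-free

`H_1023(X^{13,11})` is not a multiplicity-free representation of the hyperoctahedral group.
-/

namespace Pool.Agent.Results.MP_d0402e_co.NotMultiplicityFree

open Pool.Agent.R951.Cube Function

universe u

/-! ### concatenation and complements -/

theorem hammingDist_append {a b : ℕ} (u u' : Fin a → Bool) (x x' : Fin b → Bool) :
    hammingDist (Fin.append u x) (Fin.append u' x') = hammingDist u u' + hammingDist x x' := by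
  unfold hammingDist
  rw [Finset.card_filter, Finset.card_filter, Finset.card_filter, Fin.sum_univ_add]
  simp [Fin.append_left, Fin.append_right]

/-- the antipode -/
def anti {a : ℕ} (u : Fin a → Bool) : Fin a → Bool := fun i => !(u i)

theorem anti_anti {a : ℕ} (u : Fin a → Bool) : anti (anti u) = u := by
  funext i; simp [anti]

theorem hammingDist_anti {a : ℕ} (u : Fin a → Bool) : hammingDist u (anti u) = a := by
  unfold hammingDist anti
  rw [Finset.filter_true_of_mem (by intro i _; cases u i <;> simp)]
  simp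

theorem hammingDist_le_of_ne {a : ℕ} (u u' : Fin (a + 1) → Bool) (h : u' ≠ anti u) :
    hammingDist u u' ≤ a := by
  by_contra hc
  push Not at hc
  apply h
  have h1 : hammingDist u u' = a + 1 := by
    have := hammingDist_le_card_fintype (x := u) (y := u')
    rw [Fintype.card_fin] at this
    omega
  have h2 : (Finset.univ.filter fun i => u i ≠ u' i) = Finset.univ := by
    apply Finset.eq_univ_of_card
    rw [Fintype.card_fin]
    exact h1
  funext i
  have h3 : i ∈ Finset.univ.filter fun i => u i ≠ u' i := by rw [h2]; exact Finset.mem_univ i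
  simp only [Finset.mem_filter, Finset.mem_univ, true_and] at h3
  unfold anti
  cases hu : u i <;> cases hu' : u' i <;> simp_all

/-- the label of an antipodal pair -/
def lab (u : Vert 7) : Vert 6 := fun i => xor (u 0) (u i.succ)

theorem lab_anti (u : Vert 7) : lab (anti u) = lab u := by
  funext i; simp [lab, anti]

theorem exists_lab (w : Vert 6) : ∃ u, lab u = w :=
  ⟨Fin.cons false w, by funext i; simp [lab]⟩

/-! ### the sets of diameter four in the cube of dimension six -/

/-- the bits of a number -/
def bits (c : ℕ) : Vert 6 := ![c.testBit 0, c.testBit 1, c.testBit 2, c.testBit 3, c.testBit 4,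
  c.testBit 5]

/-- the eight points of the set `F` (for `false`) and of the set `G` (for `true`) -/
def P (b : Bool) (i : Fin 8) : Vert 6 :=
  bits ((![62, 57, 35, 10, 23, 13, 36, 16] i) ^^^ (if b then 1 else 0))

/-- the partners -/
def Q (b : Bool) (i : Fin 8) : Vert 6 :=
  bits ((![3, 14, 24, 21, 32, 54, 59, 45] i) ^^^ (if b then 1 else 0))

theorem PP : ∀ b i j, hammingDist (P b i) (P b j) ≤ 4 := by decide
theorem QQ : ∀ b i j, hammingDist (Q b i) (Q b j) ≤ 4 := by decide
theorem PQ : ∀ b i j, i ≠ j → hammingDist (P b i) (Q b j) ≤ 4 := by decide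
theorem PP' : ∀ b b' i j, hammingDist (P b i) (P b' j) ≤ 5 := by decide
theorem QQ' : ∀ b b' i j, hammingDist (Q b i) (Q b' j) ≤ 5 := by decide
theorem PQ' : ∀ b b' i j, hammingDist (P b i) (Q b' j) ≤ 5 := by decide
theorem P_inj : ∀ b i j, P b i = P b j → i = j := by decide
theorem Q_inj : ∀ b i j, Q b i = Q b j → i = j := by decide
theorem P_ne_Q : ∀ b i j, P b i ≠ Q b j := by decide
theorem P_ne_P : ∀ b i j, P b i ≠ P (!b) j := by decide
theorem P_ne_Q' : ∀ b i j, P b i ≠ Q (!b) j := by decide

theorem P_max' : ∀ a₀ a₁ a₂ a₃ a₄ a₅ b, (∀ i, P b i ≠ ![a₀, a₁, a₂, a₃, a₄, a₅]) →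
    ∃ i, 5 ≤ hammingDist ![a₀, a₁, a₂, a₃, a₄, a₅] (P b i) := by decide

theorem P_max (b : Bool) (v : Vert 6) (h : ∀ i, P b i ≠ v) : ∃ i, 5 ≤ hammingDist v (P b i) := by
  have hv : v = ![v 0, v 1, v 2, v 3, v 4, v 5] := by
    funext i; fin_cases i <;> rfl
  rw [hv] at h ⊢
  exact P_max' _ _ _ _ _ _ b h

/-! ### the cross-polytopes -/

/-- an enumeration of the pairs -/
noncomputable def E : Fin (1023 + 1) ≃ Vert 7 × Fin 8 :=
  (Fintype.equivFinOfCardEq (by simp)).symm

/-- the first vertices of the pairs -/
noncomputable def X (g : Vert 6 → Bool) (a : Fin (1023 + 1)) : Vert (7 + 6) :=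
  Fin.append (E a).1 (P (g (lab (E a).1)) (E a).2)

/-- the second vertices of the pairs -/
noncomputable def Y (g : Vert 6 → Bool) (a : Fin (1023 + 1)) : Vert (7 + 6) :=
  Fin.append (anti (E a).1) (Q (g (lab (E a).1)) (E a).2)

theorem append_inj {u u' : Vert 7} {x x' : Vert 6}
    (h : (Fin.append u x : Fin (7 + 6) → Bool) = Fin.append u' x') : u = u' ∧ x = x' := by
  constructor
  · funext i
    have := congrFun h (Fin.castAdd 6 i)
    rwa [Fin.append_left, Fin.append_left] at this
  · funext i
    have := congrFun h (Fin.natAdd 7 i)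
    rwa [Fin.append_right, Fin.append_right] at this

theorem X_inj (g : Vert 6 → Bool) : Injective (X g) := by
  intro a a' h
  obtain ⟨h1, h2⟩ := append_inj h
  rw [h1] at h2
  exact E.injective (Prod.ext h1 (P_inj _ _ _ h2))

theorem Y_ne_X (g : Vert 6 → Bool) (a b) : Y g a ≠ X g b := by
  intro h
  obtain ⟨h1, h2⟩ := append_inj h
  rw [← h1, lab_anti] at h2
  exact P_ne_Q _ _ _ h2.symm

theorem hamming_comm' (x y : Vert 6) : hammingDist x y = hammingDist y x := hammingDist_comm x y

/-- Two vertices of a cross-polytope which are not partners have distance at most `11`. -/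
theorem dist_le {u u' : Vert 7} {x x' : Vert 6} (h5 : hammingDist x x' ≤ 5)
    (h4 : u' = anti u → hammingDist x x' ≤ 4) :
    hammingDist (Fin.append u x : Fin (7 + 6) → Bool) (Fin.append u' x') ≤ 11 := by
  rw [hammingDist_append]
  by_cases h : u' = anti u
  · have h1 := h4 h
    have h2 : hammingDist u u' = 7 := by rw [h, hammingDist_anti]
    omega
  · have := hammingDist_le_of_ne u u' h
    omega

theorem XX (g : Vert 6 → Bool) (a b) : hammingDist (X g a) (X g b) ≤ 11 := by
  refine dist_le (PP' _ _ _ _) fun h => ?_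
  rw [h, lab_anti]
  exact PP _ _ _

theorem YY (g : Vert 6 → Bool) (a b) : hammingDist (Y g a) (Y g b) ≤ 11 := by
  refine dist_le (QQ' _ _ _ _) fun h => ?_
  have h' : (E b).1 = anti (E a).1 := by
    have := congrArg anti h
    rwa [anti_anti, anti_anti] at this
  rw [h', lab_anti]
  exact QQ _ _ _

theorem XY (g : Vert 6 → Bool) {a b} (hab : a ≠ b) : hammingDist (X g a) (Y g b) ≤ 11 := by
  refine dist_le (PQ' _ _ _ _) fun h => ?_
  have h' : (E b).1 = (E a).1 := by
    have := congrArg anti h
    rwa [anti_anti, anti_anti] at this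
  rw [h']
  refine PQ _ _ _ fun hi => hab ?_
  exact E.injective (Prod.ext h'.symm hi)

theorem simplex (g : Vert 6 → Bool) (c : Fin (1023 + 1) → Bool) :
    IsSimplex 11 (fun a => if c a then X g a else Y g a) := by
  constructor
  · intro a b h
    simp only at h
    split_ifs at h with h1 h2 h2
    · exact X_inj g h
    · exact (Y_ne_X g b a h.symm).elim
    · exact (Y_ne_X g a b h).elim
    · obtain ⟨h3, h4⟩ := append_inj h
      have h5 : (E a).1 = (E b).1 := by
        have := congrArg anti h3
        rwa [anti_anti, anti_anti] at this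
      rw [h5] at h4
      exact E.injective (Prod.ext h5 (Q_inj _ _ _ h4))
  · intro a b
    by_cases hab : a = b
    · subst hab
      simp
    · simp only
      split_ifs
      · exact XX g a b
      · exact XY g hab
      · rw [hammingDist_comm]; exact XY g (Ne.symm hab)
      · exact YY g a b

theorem maximal (g : Vert 6 → Bool) (v : Vert (7 + 6))
    (hv : ∀ a, hammingDist v (X g a) ≤ 11) : ∃ a, X g a = v := by
  obtain ⟨u, x, rfl⟩ : ∃ (u : Vert 7) (x : Vert 6), v = Fin.append u x := by
    refine ⟨fun i => v (Fin.castAdd 6 i), fun i => v (Fin.natAdd 7 i), ?_⟩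
    exact (Fin.append_castAdd_natAdd).symm
  by_cases h : ∃ i, P (g (lab u)) i = x
  · obtain ⟨i, hi⟩ := h
    refine ⟨E.symm (u, i), ?_⟩
    unfold X
    rw [Equiv.apply_symm_apply, hi]
  · push Not at h
    obtain ⟨i, hi⟩ := P_max _ x h
    have h1 := hv (E.symm (anti u, i))
    unfold X at h1
    rw [Equiv.apply_symm_apply, hammingDist_append, lab_anti, hammingDist_anti] at h1
    simp only at h1
    omega

theorem separate (g h : Vert 6 → Bool) (hgh : g ≠ h) :
    ∃ b, ∀ a, X g a ≠ X h b ∧ Y g a ≠ X h b := by
  obtain ⟨w, hw⟩ := Function.ne_iff.mp hgh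
  obtain ⟨u, rfl⟩ := exists_lab w
  have hw' : g (lab u) = !(h (lab u)) := by
    cases h1 : g (lab u) <;> cases h2 : h (lab u) <;> simp_all
  refine ⟨E.symm (u, 0), fun a => ⟨fun heq => ?_, fun heq => ?_⟩⟩
  · obtain ⟨h1, h2⟩ := append_inj heq
    rw [Equiv.apply_symm_apply] at h1 h2
    rw [h1, hw'] at h2
    exact P_ne_P _ _ _ h2.symm
  · obtain ⟨h1, h2⟩ := append_inj heq
    rw [Equiv.apply_symm_apply] at h1 h2
    have h3 : (E a).1 = anti u := by
      have := congrArg anti h1
      rwa [anti_anti] at this
    rw [h3, lab_anti, hw'] at h2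
    exact P_ne_Q' _ _ _ h2.symm

/-- **Disproof.** For every field `k` of characteristic zero, the homology
`H_1023(X^{13,11}; k)` of the Vietoris-Rips complex of the 13-dimensional hypercube at scale 11 is
not a multiplicity-free representation of the hyperoctahedral group. -/
theorem result (k : Type u) [Field k] [CharZero k] :
    ¬ MultiplicityFree k (homologyRep k 13 11 1023) := by
  refine not_multiplicityFree (n := 7 + 6) k X Y X_inj maximal simplex Y_ne_X separate ?_
  rw [Fintype.card_fun, Fintype.card_fun]
  simp only [Fintype.card_fin, Fintype.card_bool]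
  norm_num [Nat.factorial]

end Pool.Agent.Results.MP_d0402e_co.NotMultiplicityFree
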